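import Mathlib
import Pool.Agent.L7h24.CS.Main

/-!
# MP_301213_nt: Hoffman words with a common last part have no relations of small height

Let `U` be a finite set of words whose letters are at least two, for instance all words of weight `W` in the letters `2`,
`3`, and let `q` be any nonempty admissible word (the letters of `q` belong to the smallest summation variables). The
numbers `ζ(u q)`, `u ∈ U`, satisfy no linear relation with integer coefficients, not all zero, of absolute value at most
`κ · length q`, where `κ > 0` depends only on `U`, not on `q`; and the value of such a linear form is at least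
`κ ζ(2, ..., 2, q)` in absolute value, with `M = M(U)` letters `2`. So for fixed `W` and fixed height there is no relation
between Hoffman elements of the form `ζ(u q)`, `u` of weight `W`, as soon as `q` is long, for all `q`.

The starting file `CommonPrefix` of this page is the analogous statement for words with a common first part (the letters
of the largest summation variables); neither statement contains the other. The proof here is different: `ζ(u q)` is the sum
of the values at `m ≥ length q` of the tail `T_u(m)` (the sum of the terms of `ζ(u)` with all variables larger than `m`)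
with nonnegative weights which depend on `q` only. The tails have asymptotic expansions in powers of `1/m` with rational
coefficients, and these are linearly independent (the tails are linearly independent over the rational functions
modulo rapidly decreasing sequences). So the first nonzero coefficient of the expansion of the combination gives it
constant sign and a lower bound for `m` larger than a constant times the height.
-/

set_option autoImplicit false

namespace Pool.Agent.Results.MP_301213_nt.CommonSuffix

open Pool.Agent.H447R2.MZ (Adm val)

/-- the multiple zeta value of the list `l`, the first entry belongs to the largest summation variable, in the words of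
`S16469` -/
noncomputable def mzv (l : List ℕ) : ℝ :=
  ∑' m : {m : Fin l.length → ℕ // StrictAnti m ∧ ∀ i, 0 < m i}, ∏ i, ((m.1 i : ℝ) ^ (l.get i))⁻¹

lemma mzv_eq {l : List ℕ} (hl : Adm l) : mzv l = val l := by
  have h1 := Pool.Agent.H447R2.MZ.hasSum_val l.length l.get (by rw [List.ofFn_get]; exact hl)
  rw [List.ofFn_get] at h1
  exact h1.tsum_eq

lemma H_pos : ∀ l : List ℕ, 0 < Pool.Agent.H447R2.MZ.H l l.length := by
  intro l
  induction l with
  | nil => rw [Pool.Agent.H447R2.MZ.H_nil]; exact one_pos
  | cons s p ih =>
    rw [List.length_cons, Pool.Agent.H447R2.MZ.H_cons_succ]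
    have h1 := Pool.Agent.H447R2.MZ.H_nonneg (s :: p) p.length
    have h2 : (0 : ℝ) < (((p.length + 1 : ℕ) : ℝ) ^ s)⁻¹ * Pool.Agent.H447R2.MZ.H p p.length :=
      mul_pos (by positivity) ih
    linarith

/-- **Theorem.** For every finite set `U` of words with letters at least two there are `κ > 0` and `M` such that for all
nonempty admissible words `q` and all integers `c_u`, `u ∈ U`, not all zero, of absolute value at most `κ · length q`:
`|∑ c_u ζ(u q)| ≥ κ ζ(2, ..., 2, q) > 0`, with `M` letters `2`. In particular the numbers `ζ(u q)`, `u ∈ U`, satisfy no
nontrivial linear relation with integer coefficients of absolute value at most `κ · length q`. -/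
theorem result (U : Finset (List ℕ)) (hU : ∀ u ∈ U, ∀ s ∈ u, 2 ≤ s) : ∃ κ : ℝ, 0 < κ ∧ ∃ M : ℕ,
    ∀ q : List ℕ, q ≠ [] → (∀ s ∈ q, 1 ≤ s) → (∀ s t, q = s :: t → 2 ≤ s) →
    ∀ c : List ℕ → ℤ, (∀ u ∈ U, |(c u : ℝ)| ≤ κ * q.length) → (∃ u ∈ U, c u ≠ 0) →
      0 < mzv (List.replicate M 2 ++ q) ∧
        κ * mzv (List.replicate M 2 ++ q) ≤ |∑ u ∈ U, (c u : ℝ) * mzv (u ++ q)| := by
  obtain ⟨κ, hκ, M, h⟩ := Pool.Agent.L7h24.CS.main U hU
  refine ⟨κ, hκ, M, fun q hq0 hq1 hq2 c hc hne => ?_⟩
  have hq : Adm q := ⟨hq1, hq2⟩
  have h2 : Adm (List.replicate M 2 ++ q) :=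
    Pool.Agent.L7h24.CS.adm_append (fun x hx => by rw [List.eq_of_mem_replicate hx]) hq
  rw [mzv_eq h2]
  refine ⟨lt_of_lt_of_le (H_pos _) (Pool.Agent.H447R2.MZ.H_le_val _ h2 _), ?_⟩
  refine (h q hq0 hq c hc hne).trans (le_of_eq ?_)
  congr 1
  refine Finset.sum_congr rfl fun u hu => ?_
  rw [mzv_eq (Pool.Agent.L7h24.CS.adm_append (hU u hu) hq)]

end Pool.Agent.Results.MP_301213_nt.CommonSuffix
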