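import Mathlib
import Pool.Agent.L7h24.TS.Hgt

/-!
# MP_301213_nt: Hoffman elements with the letters 3 near the two ends: no relations of height up to `κ n²`

Let `U` be a finite set of pairs `(a, b)` of words whose letters are at least two, no two of which give the same words
`a 2^n b`. The multiple zeta values `ζ(a 2 ... 2 b)` (`n` letters `2` in the middle), `(a, b) ∈ U`, satisfy no linear
relation with integer coefficients, not all zero, of absolute value at most `κ n²`, where `κ > 0` depends only on `U`; and
the value of such a linear form is at least `κ ζ(2, ..., 2)` in absolute value, with `n + M` letters `2`, `M = M(U)`. For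
words in the letters `2` and `3` these are the Hoffman elements whose letters `3` are at bounded distance from the two
ends of the word.

The starting file `CommonPrefix` and the file `CommonSuffix` of this page have an arbitrary long common part at one end
of the words, and coefficients up to a constant times its length. Here both ends of the words vary, and the bound for the
coefficients is quadratic. For the proof see `TwoEndedReal`: `ζ(a 2^n b)` has an expansion `Σ_k t_k(a, b) ζ(2^{n + k})` with
rational `t_k`, and the series `Σ_k t_k(a, b) y^k`, `(a, b) ∈ U`, are linearly independent over `ℚ`. The first nonzero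
coefficient of the expansion of the linear form decides.
-/

set_option autoImplicit false

namespace Pool.Agent.Results.MP_301213_nt.TwoEndedHeights

open Pool.Agent.H447R2.MZ (Adm val)

/-- the multiple zeta value of the list `l`, the first entry belongs to the largest summation variable, in the words of
`S16469` -/
noncomputable def mzv (l : List ℕ) : ℝ :=
  ∑' m : {m : Fin l.length → ℕ // StrictAnti m ∧ ∀ i, 0 < m i}, ∏ i, ((m.1 i : ℝ) ^ (l.get i))⁻¹

lemma mzv_eq {l : List ℕ} (hl : Adm l) : mzv l = val l := by
  have h1 := Pool.Agent.H447R2.MZ.hasSum_val l.length l.get (by rw [List.ofFn_get]; exact hl)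
  rw [List.ofFn_get] at h1
  exact h1.tsum_eq

/-- **Theorem.** Let `U` be a finite set of pairs `(a, b)` of words with letters at least two, no two of which give the same
words `a 2^n b`. There are `κ > 0` and `M` such that for all `n ≥ 1` and all integers `c_u`, `u ∈ U`, not all zero, of absolute
value at most `κ n²`: `|∑_{u = (a, b)} c_u ζ(a 2^n b)| ≥ κ ζ(2^{n + M}) > 0`. -/
theorem result (U : Finset (List ℕ × List ℕ)) (hU : ∀ u ∈ U, (∀ s ∈ u.1, 2 ≤ s) ∧ ∀ s ∈ u.2, 2 ≤ s)
    (hdist : ∀ u ∈ U, ∀ v ∈ U,
      (∀ n, u.1 ++ List.replicate n 2 ++ u.2 = v.1 ++ List.replicate n 2 ++ v.2) → u = v) :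
    ∃ κ : ℝ, 0 < κ ∧ ∃ M : ℕ, ∀ n : ℕ, 1 ≤ n → ∀ c : List ℕ × List ℕ → ℤ,
      (∀ u ∈ U, |(c u : ℝ)| ≤ κ * (n : ℝ) ^ 2) → (∃ u ∈ U, c u ≠ 0) →
        0 < mzv (List.replicate (n + M) 2) ∧ κ * mzv (List.replicate (n + M) 2) ≤
          |∑ u ∈ U, (c u : ℝ) * mzv (u.1 ++ List.replicate n 2 ++ u.2)| := by
  obtain ⟨κ, hκ, M, h⟩ := Pool.Agent.L7h24.TS.two_ended_heights U hU hdist
  refine ⟨κ, hκ, M, fun n hn c hc hne => ?_⟩
  have h2 : ∀ n : ℕ, ∀ s ∈ List.replicate n 2, 2 ≤ s := fun n s hs => by rw [List.eq_of_mem_replicate hs]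
  have hZ : mzv (List.replicate (n + M) 2) = Pool.Agent.L7h24.CS.Z (n + M) := by
    rw [mzv_eq (Pool.Agent.L7h24.CS.adm_of_ge (h2 _))]
    rfl
  have hs : ∀ u ∈ U, mzv (u.1 ++ List.replicate n 2 ++ u.2) = val (u.1 ++ Pool.Agent.L7h24.CS.w2 n ++ u.2) := by
    intro u hu
    refine mzv_eq (Pool.Agent.L7h24.CS.adm_of_ge fun s hs => ?_)
    rw [List.mem_append, List.mem_append] at hs
    rcases hs with (hs | hs) | hs
    · exact (hU u hu).1 s hs
    · exact h2 n s hs
    · exact (hU u hu).2 s hs
  rw [hZ]
  refine ⟨Pool.Agent.L7h24.CS.Z_pos _, (h n hn c hc hne).trans (le_of_eq ?_)⟩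
  congr 1
  exact Finset.sum_congr rfl fun u hu => by rw [hs u hu]

end Pool.Agent.Results.MP_301213_nt.TwoEndedHeights
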