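import Mathlib
import Pool.Agent.L7h24.TS.FinR

/-!
# MP_301213_nt: Hoffman elements with the letters 3 near the two ends: real coefficients

The multiple zeta values `ζ(a 2 ... 2 b)` (`n` letters `2` in the middle; the letters of `a` belong to the largest
summation variables), with `(a, b)` in a finite set `U` of pairs of words whose letters are at least two, no two of
which give the same words, satisfy no linear relation for large `n` whose coefficients are combinations of the `α^n`,
`α > 0`, with polynomials in `n` as coefficients which are either of degree at most one, with arbitrary real coefficients,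
or of any degree, with algebraic coefficients. More precisely such a linear form is at least `α^n n^{-B} ζ(2, ..., 2)` in
absolute value, for every base `α` that occurs. The coefficients may be, for instance, `q + r n` with fixed `q`, `r` in the
ring of all multiple zeta values. Because of Euler's relation `(2 n + 2) (2 n + 3) ζ(2^{n + 1}) = 6 ζ(2) ζ(2^n)` one cannot
replace the degree one by two. For words in the letters `2` and `3` the `ζ(a 2^n b)` are the Hoffman elements whose letters
`3` are at bounded distance from the two ends of the word.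

Proof. As `n → ∞`, `ζ(a 2^n b)` has an asymptotic expansion `Σ_k t_k(a, b) ζ(2^{n + k})` with rational `t_k`, and the
series `Σ t_k(a, b) y^k` is the product of an outer series `R_a(y)` (the expansion of the tails of `ζ(a)` in those of the
`ζ(2^k)`) and an inner series `S_b(y)` (the expansion of the harmonic sum of `b` in those of the words `2^k`). Put
`y = - 1 / z²`. Multiplication of a tail by `1 / m` acts on `R / z` as `tanh(∂/2) z^{-1}`, and multiplication of a harmonic
sum by `1 / (m + 1)` acts on `S / z²` as `- coth(∂/2) z^{-1}`, where `exp ∂` is the shift `z ↦ z + 1`. So the outer series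
are iterated alternating sums and the inner series iterated sums without signs, and a difference algebra argument shows
that the products `R_a S_b` of the normalised words are linearly independent over the rational functions of `z` with real
coefficients. So for real polynomials `p_u` of degree at most one, not all zero, there is a first `k` with
`Σ_u t_k(u) p_u ≠ 0`, and this term dominates, as `ζ(2^{n + 1}) / ζ(2^n)` is of the order `n^{-2}`. For algebraic
coefficients the transcendence of `π` is used.
-/

set_option autoImplicit false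

namespace Pool.Agent.Results.MP_301213_nt.TwoEndedReal

open Filter
open Pool.Agent.H447R2.MZ (Adm val)

/-- the multiple zeta value of the list `l`, the first entry belongs to the largest summation variable, in the words of
`S16469` -/
noncomputable def mzv (l : List ℕ) : ℝ :=
  ∑' m : {m : Fin l.length → ℕ // StrictAnti m ∧ ∀ i, 0 < m i}, ∏ i, ((m.1 i : ℝ) ^ (l.get i))⁻¹

lemma mzv_eq {l : List ℕ} (hl : Adm l) : mzv l = val l := by
  have h1 := Pool.Agent.H447R2.MZ.hasSum_val l.length l.get (by rw [List.ofFn_get]; exact hl)
  rw [List.ofFn_get] at h1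
  exact h1.tsum_eq

/-- **Theorem.** Let `U` be a finite set of pairs `(a, b)` of words with letters at least two, no two of which give the same
words `a 2^n b`, let `J` be a finite set of positive real numbers, and for `α ∈ J`, `u ∈ U` let `p α u` be a real
polynomial. For every `α ∈ J` let the `p α u`, `u ∈ U`, all be of degree at most one, or let all their coefficients be
algebraic over `ℚ`. If `p α₀ u ≠ 0` for some `u ∈ U`, then for a natural number `B` and all large `n`:
`0 < α₀^n ζ(2^n) ≤ n^B |∑_{α ∈ J} ∑_{u = (a, b) ∈ U} α^n p_{α,u}(n) ζ(a 2^n b)|`. -/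
theorem result (U : Finset (List ℕ × List ℕ)) (hU : ∀ u ∈ U, (∀ s ∈ u.1, 2 ≤ s) ∧ ∀ s ∈ u.2, 2 ≤ s)
    (hdist : ∀ u ∈ U, ∀ v ∈ U,
      (∀ n, u.1 ++ List.replicate n 2 ++ u.2 = v.1 ++ List.replicate n 2 ++ v.2) → u = v)
    (J : Finset ℝ) (hJ : ∀ α ∈ J, 0 < α) (p : ℝ → List ℕ × List ℕ → Polynomial ℝ)
    (hp : ∀ α ∈ J, (∀ u ∈ U, (p α u).natDegree ≤ 1) ∨ ∀ u ∈ U, ∀ k, IsAlgebraic ℚ ((p α u).coeff k))
    (α₀ : ℝ) (hα₀ : α₀ ∈ J) (hne : ∃ u ∈ U, p α₀ u ≠ 0) :
    ∃ B : ℕ, ∀ᶠ n : ℕ in atTop, 0 < mzv (List.replicate n 2) ∧
      α₀ ^ n * mzv (List.replicate n 2) ≤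
        (n : ℝ) ^ B * |∑ α ∈ J, ∑ u ∈ U, α ^ n * (p α u).eval (n : ℝ) * mzv (u.1 ++ List.replicate n 2 ++ u.2)| := by
  obtain ⟨B, hB⟩ := Pool.Agent.L7h24.OE.pairs_mixed U hU hdist J hJ p hp α₀ hα₀ hne
  refine ⟨B, hB.mono fun n hn => ?_⟩
  have h2 : ∀ s ∈ List.replicate n 2, 2 ≤ s := fun s hs => by rw [List.eq_of_mem_replicate hs]
  have hZ : mzv (List.replicate n 2) = Pool.Agent.L7h24.CS.Z n := by
    rw [mzv_eq (Pool.Agent.L7h24.CS.adm_of_ge h2)]
    rfl
  have hs : ∀ u ∈ U, mzv (u.1 ++ List.replicate n 2 ++ u.2) = val (u.1 ++ Pool.Agent.L7h24.CS.w2 n ++ u.2) := by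
    intro u hu
    refine mzv_eq (Pool.Agent.L7h24.CS.adm_of_ge fun s hs => ?_)
    rw [List.mem_append, List.mem_append] at hs
    rcases hs with (hs | hs) | hs
    · exact (hU u hu).1 s hs
    · exact h2 s hs
    · exact (hU u hu).2 s hs
  rw [hZ]
  refine ⟨Pool.Agent.L7h24.CS.Z_pos n, hn.trans (le_of_eq ?_)⟩
  congr 2
  exact Finset.sum_congr rfl fun α _ => Finset.sum_congr rfl fun u hu => by rw [hs u hu]

end Pool.Agent.Results.MP_301213_nt.TwoEndedReal
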