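import Mathlib
import Pool.Agent.H447R2.MZ.Tup
import Pool.Agent.L7h24.RT.Tp

/-!
# MP_301213_nt: almost all tuples of Hoffman elements of weight `k` satisfy no relation of height `exp (o (√k))`

Let `C` be the set of the words of weight `k` in the letters `2` and `3`. Among the `|C|^r` tuples of `r` words in `C` at
most `600 r² log (2 r B) |C|^r / √k` have real coefficients `c_1, ..., c_r`, not all zero, each of them zero or of
absolute value between `1` and `B`, such that `|∑ c_i ζ(w_i)|` is less than half of the largest `ζ(w_i)` with `c_i ≠ 0`.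
In particular, for fixed `r` and `k → ∞` almost all tuples satisfy no nontrivial linear relation with integer
coefficients of absolute value at most `exp (o (√k))`.

Proof. If a block `3, 3` at one of the first places of the word (large summation variables) is exchanged for `2, 2, 2`,
the value is at least doubled (`Pool.Agent.L7h24.RT.exch`): the third variable has room, because the variables may be
shifted by `8` at a bounded cost. A word of weight `k` begins with `k / 223` words of the prefix code
`33, 222, 32, 23, 223`; the words which differ only in the code words `33`, `222` form a Boolean lattice, and by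
Sperner's theorem the words of this lattice with a value in `[x, 2 x)` are few. For almost all tuples the values are
therefore far apart, and the largest of them dominates every linear form.
-/

set_option autoImplicit false

namespace Pool.Agent.Results.MP_301213_nt.TypicalTuples

open Pool.Agent.H447R2.MZ (Adm val)

/-- the multiple zeta value of the list `l`, the first entry belongs to the largest summation variable, in the words of
`S16469` -/
noncomputable def mzv (l : List ℕ) : ℝ :=
  ∑' m : {m : Fin l.length → ℕ // StrictAnti m ∧ ∀ i, 0 < m i}, ∏ i, ((m.1 i : ℝ) ^ (l.get i))⁻¹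

/-- the words of weight `k` in the letters `2` and `3` -/
def hoffman (k : ℕ) : Set (List ℕ) := {w | (∀ a ∈ w, a = 2 ∨ a = 3) ∧ w.sum = k}

/-- the `r`-tuples of words of weight `k` in the letters `2`, `3` for which there are real coefficients `c_i`, each of them
zero or of absolute value between `1` and `B`, such that `|∑ c_j ζ(w_j)| < ζ(w_i) / 2` for some `i` with `c_i ≠ 0` -/
def exceptional (k r : ℕ) (B : ℝ) : Set (Fin r → List ℕ) :=
  {w | (∀ i, w i ∈ hoffman k) ∧ ∃ c : Fin r → ℝ, (∀ i, c i = 0 ∨ 1 ≤ |c i| ∧ |c i| ≤ B) ∧
    ∃ i, c i ≠ 0 ∧ |∑ j, c j * mzv (w j)| < mzv (w i) / 2}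

lemma mzv_eq {l : List ℕ} (hl : Adm l) : mzv l = val l := by
  have h1 := Pool.Agent.H447R2.MZ.hasSum_val l.length l.get (by rw [List.ofFn_get]; exact hl)
  rw [List.ofFn_get] at h1
  exact h1.tsum_eq

lemma mzv_hoffman {k : ℕ} {w : List ℕ} (h : w ∈ hoffman k) : mzv w = val w := by
  refine mzv_eq ⟨fun a ha => ?_, fun a t ht => ?_⟩
  · have := h.1 a ha
    omega
  · have := h.1 a (by rw [ht]; exact List.mem_cons_self)
    omega

lemma hoffman_eq (k : ℕ) : hoffman k = (Pool.Agent.L7h24.RT.W k : Finset (List ℕ)) := by
  ext w
  exact (Pool.Agent.L7h24.RT.mem_W k w).symm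

/-- **Theorem.** All values `ζ(w)`, `w` a word of weight `k` in the letters `2`, `3`, are positive, and for all
`k, r ≥ 1` and real `B ≥ 1` at most `600 r² log (2 r B) |C|^r / √k` of the `|C|^r` tuples of `r` such words are
exceptional. -/
theorem result (k r : ℕ) (hk : 1 ≤ k) (hr : 1 ≤ r) (B : ℝ) (hB : 1 ≤ B) :
    (∀ w ∈ hoffman k, 0 < mzv w) ∧
    ((exceptional k r B).ncard : ℝ) ≤
      600 * (r : ℝ) ^ 2 * Real.log (2 * r * B) / Real.sqrt k * ((hoffman k).ncard : ℝ) ^ r := by
  classical
  refine ⟨fun w hw => by rw [mzv_hoffman hw]; exact Pool.Agent.L7h24.RT.val_pos w hw.1, ?_⟩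
  have hd : (hoffman k).ncard = Pool.Agent.L7h24.RT.d k := by
    rw [hoffman_eq, Set.ncard_coe_finset]
    rfl
  have hsub : exceptional k r B ⊆ ((Fintype.piFinset fun _ : Fin r => Pool.Agent.L7h24.RT.W k :
      Finset (Fin r → List ℕ)) : Set (Fin r → List ℕ)) := by
    intro w hw
    rw [Finset.mem_coe, Fintype.mem_piFinset]
    intro i
    have := hw.1 i
    rw [hoffman_eq] at this
    exact this
  have hfin : (exceptional k r B).Finite := (Finset.finite_toSet _).subset hsub
  rw [hd, Set.ncard_eq_toFinset_card _ hfin]
  refine Pool.Agent.L7h24.RT.tuples k r hk hr B hB _ fun w hw => ?_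
  rw [Set.Finite.mem_toFinset] at hw
  obtain ⟨h1, c, h2, i, h3, h4⟩ := hw
  refine ⟨fun i => ?_, c, h2, i, h3, ?_⟩
  · have := h1 i
    rw [hoffman_eq] at this
    exact this
  · rw [mzv_hoffman (h1 i)] at h4
    have h5 : ∑ j, c j * mzv (w j) = ∑ j, c j * val (w j) :=
      Finset.sum_congr rfl fun j _ => by rw [mzv_hoffman (h1 j)]
    rw [h5] at h4
    exact h4

end Pool.Agent.Results.MP_301213_nt.TypicalTuples
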